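import Pool.Agent.N659.HB.Stm
import Pool.Agent.W174.WA.KA

/-! Bounds for the Bessel function `J₀(2 s)`. -/

set_option autoImplicit false

namespace Pool.Agent.N507.HB

open MeasureTheory Filter Pool.Agent.W792.LL Pool.Agent.W792.WA Pool.Agent.N659.HB
open scoped Topology ENNReal

noncomputable section

/-- the cosine on the circle -/
def cs (θ : UnitAddCircle) : ℝ := (fourier 1 θ).re

theorem cs_cont : Continuous cs := by
  unfold cs
  exact Complex.continuous_re.comp (fourier (T := (1 : ℝ)) 1).continuous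

theorem cs_abs (θ : UnitAddCircle) : |cs θ| ≤ 1 := by
  unfold cs
  refine (Complex.abs_re_le_norm _).trans ?_
  rw [fourier_apply, Circle.norm_coe]

theorem cs_sq (θ : UnitAddCircle) : cs θ ^ 2 ≤ 1 := by
  have h := cs_abs θ
  rw [← sq_abs]
  exact pow_le_one₀ (abs_nonneg _) h

theorem vol : (volume : Measure UnitAddCircle) = AddCircle.haarAddCircle := by
  rw [AddCircle.volume_eq_smul_haarAddCircle, ENNReal.ofReal_one, one_smul]

theorem prob : IsProbabilityMeasure (volume : Measure UnitAddCircle) :=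
  ⟨UnitAddCircle.measure_univ⟩

/-- continuous functions on the circle are integrable -/
theorem integ {f : UnitAddCircle → ℝ} (hf : Continuous f) : Integrable f := by
  have := prob
  exact hf.integrable_of_hasCompactSupport (HasCompactSupport.of_compactSpace f)

theorem bes_def (s : ℝ) : bes s = ∫ θ : UnitAddCircle, Real.cos (2 * s * cs θ) := rfl

theorem int_const (c : ℝ) : ∫ _θ : UnitAddCircle, c = c := by
  have := prob
  simp

/-- the second moment -/
theorem cs_two : ∫ θ : UnitAddCircle, cs θ ^ 2 = 1 / 2 := by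
  have h1 := AddCircle.intervalIntegral_preimage (1 : ℝ) 0 (fun θ : UnitAddCircle => cs θ ^ 2)
  rw [← h1, zero_add]
  have h2 : ∀ x : ℝ, cs (x : UnitAddCircle) = Real.cos (2 * Real.pi * x) := by
    intro x
    unfold cs
    rw [fourier_coe_apply]
    have h : 2 * (Real.pi : ℂ) * Complex.I * ((1 : ℤ) : ℂ) * (x : ℂ) / ((1 : ℝ) : ℂ) =
        ((2 * Real.pi * x : ℝ) : ℂ) * Complex.I := by
      push_cast
      ring
    rw [h, Complex.exp_ofReal_mul_I_re]
  simp only [h2]
  rw [intervalIntegral.integral_comp_mul_left (fun y => Real.cos y ^ 2) (by positivity :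
    (2 * Real.pi : ℝ) ≠ 0), integral_cos_sq]
  simp only [mul_zero, mul_one, Real.cos_two_pi, Real.sin_two_pi, Real.cos_zero, Real.sin_zero,
    smul_eq_mul]
  field_simp
  ring

/-- Taylor -/
theorem cos_four {y : ℝ} (hy : |y| ≤ 2) : |Real.cos y - 1 + y ^ 2 / 2| ≤ y ^ 4 / 16 := by
  have hlow := Real.one_sub_sq_div_two_le_cos (x := y)
  rw [abs_of_nonneg (by linarith)]
  obtain ⟨x, hx⟩ : ∃ x, x = |y| / 2 := ⟨_, rfl⟩
  have hx0 : 0 ≤ x := by rw [hx]; positivity
  have hx1 : x ≤ 1 := by rw [hx]; linarith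
  have hcos : Real.cos y = 1 - 2 * Real.sin x ^ 2 := by
    have h1 : Real.cos y = Real.cos (2 * x) := by
      rw [hx, mul_div_cancel₀ _ (by norm_num : (2 : ℝ) ≠ 0), Real.cos_abs]
    rw [h1, Real.cos_two_mul, Real.cos_sq']
    ring
  have hy2 : y ^ 2 = 4 * x ^ 2 := by
    rw [hx, div_pow, sq_abs]
    ring
  have hy4 : y ^ 4 = 16 * x ^ 4 := by
    have : y ^ 4 = (y ^ 2) ^ 2 := by ring
    rw [this, hy2]
    ring
  have hsin : x - x ^ 3 / 4 ≤ Real.sin x := by
    rcases eq_or_lt_of_le hx0 with h0 | h0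
    · rw [← h0]; simp
    · have h5 := Real.sin_gt_sub_cube h0
      have h6 : 0 ≤ x ^ 3 := by positivity
      linarith
  have h3 : 0 ≤ x - x ^ 3 / 4 := by
    have : x ^ 3 ≤ x := by
      calc x ^ 3 = x * x ^ 2 := by ring
        _ ≤ x * 1 := mul_le_mul_of_nonneg_left (pow_le_one₀ hx0 hx1) hx0
        _ = x := mul_one x
    linarith
  have h4 : (x - x ^ 3 / 4) ^ 2 ≤ Real.sin x ^ 2 := pow_le_pow_left₀ h3 hsin 2
  rw [hcos, hy2, hy4]
  nlinarith [pow_nonneg hx0 6]

theorem bes_taylor {s : ℝ} (hs : |s| ≤ 1) : |bes s - (1 - s ^ 2)| ≤ s ^ 4 / 2 := by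
  have h1 : bes s - (1 - s ^ 2) =
      ∫ θ : UnitAddCircle, (Real.cos (2 * s * cs θ) - 1 + (2 * s * cs θ) ^ 2 / 2) := by
    have e1 : ∀ θ : UnitAddCircle, Real.cos (2 * s * cs θ) - 1 + (2 * s * cs θ) ^ 2 / 2 =
        (Real.cos (2 * s * cs θ) - 1) + 2 * s ^ 2 * cs θ ^ 2 := fun θ => by ring
    simp only [e1]
    have c1 : Continuous fun θ : UnitAddCircle => Real.cos (2 * s * cs θ) :=
      Real.continuous_cos.comp (continuous_const.mul cs_cont)
    have i1 : Integrable fun θ : UnitAddCircle => Real.cos (2 * s * cs θ) - 1 :=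
      integ (c1.sub continuous_const)
    have i2 : Integrable fun θ : UnitAddCircle => 2 * s ^ 2 * cs θ ^ 2 :=
      integ (continuous_const.mul (cs_cont.pow 2))
    rw [integral_add i1 i2, integral_sub (integ c1) (integ continuous_const), integral_const_mul,
      cs_two, int_const, bes_def]
    ring
  rw [h1]
  have h2 : ∀ θ : UnitAddCircle, |Real.cos (2 * s * cs θ) - 1 + (2 * s * cs θ) ^ 2 / 2| ≤
      s ^ 4 * cs θ ^ 2 := by
    intro θ
    have h3 : |2 * s * cs θ| ≤ 2 := by
      rw [abs_mul, abs_mul, abs_two]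
      have := mul_le_mul hs (cs_abs θ) (abs_nonneg _) zero_le_one
      linarith
    refine (cos_four h3).trans ?_
    have h4 := cs_sq θ
    have h5 : 0 ≤ s ^ 4 * cs θ ^ 2 := by positivity
    have h6 : (2 * s * cs θ) ^ 4 / 16 = s ^ 4 * cs θ ^ 2 * cs θ ^ 2 := by ring
    rw [h6]
    calc s ^ 4 * cs θ ^ 2 * cs θ ^ 2 ≤ s ^ 4 * cs θ ^ 2 * 1 := mul_le_mul_of_nonneg_left h4 h5
      _ = _ := mul_one _
  calc |∫ θ : UnitAddCircle, (Real.cos (2 * s * cs θ) - 1 + (2 * s * cs θ) ^ 2 / 2)|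
      ≤ ∫ θ : UnitAddCircle, |Real.cos (2 * s * cs θ) - 1 + (2 * s * cs θ) ^ 2 / 2| :=
        abs_integral_le_integral_abs
    _ ≤ ∫ θ : UnitAddCircle, s ^ 4 * cs θ ^ 2 := by
        refine integral_mono (integ ?_) (integ (continuous_const.mul (cs_cont.pow 2))) h2
        have c1 : Continuous fun θ : UnitAddCircle => Real.cos (2 * s * cs θ) :=
          Real.continuous_cos.comp (continuous_const.mul cs_cont)
        exact ((c1.sub continuous_const).add
          (((continuous_const.mul cs_cont).pow 2).div_const 2)).abs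
    _ = s ^ 4 / 2 := by
        rw [integral_const_mul, cs_two]
        ring

theorem bes_cont : Continuous bes := by
  have := prob
  have h : bes = fun s => ∫ θ : UnitAddCircle, Real.cos (2 * s * cs θ) := rfl
  rw [h]
  refine continuous_of_dominated (bound := fun _ => (1 : ℝ)) ?_ ?_ (integ continuous_const) ?_
  · intro s
    exact (Real.continuous_cos.comp (continuous_const.mul cs_cont)).aestronglyMeasurable
  · intro s
    exact Eventually.of_forall fun θ => by
      rw [Real.norm_eq_abs]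
      exact Real.abs_cos_le_one _
  · exact Eventually.of_forall fun θ =>
      Real.continuous_cos.comp ((continuous_const.mul continuous_id).mul continuous_const)

theorem bes_le_k1 (s : ℝ) : |bes s| ≤ ‖k1 s 0‖ := by
  have h1 : k1 s 0 = ∫ θ : UnitAddCircle, Complex.exp (Complex.I * s *
      ((2 - 2 * cs θ : ℝ) : ℂ)) := by
    unfold k1
    rw [← vol]
    refine integral_congr_ae (Eventually.of_forall fun θ => ?_)
    simp only [fourier_zero, one_mul]
    rfl
  have h2 : ∀ θ : UnitAddCircle, Complex.exp (Complex.I * s * ((2 - 2 * cs θ : ℝ) : ℂ)) =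
      Complex.exp (Complex.I * ((2 * s : ℝ) : ℂ)) *
        Complex.exp (((-(2 * s * cs θ) : ℝ) : ℂ) * Complex.I) := by
    intro θ
    rw [← Complex.exp_add]
    congr 1
    push_cast
    ring
  have h3 : ‖k1 s 0‖ = ‖∫ θ : UnitAddCircle, Complex.exp (((-(2 * s * cs θ) : ℝ) : ℂ) * Complex.I)‖ := by
    rw [h1]
    simp only [h2]
    rw [integral_const_mul, norm_mul]
    have h4 : ‖Complex.exp (Complex.I * ((2 * s : ℝ) : ℂ))‖ = 1 := by
      rw [mul_comm]
      exact Complex.norm_exp_ofReal_mul_I _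
    rw [h4, one_mul]
  rw [h3]
  have hint : Integrable fun θ : UnitAddCircle =>
      Complex.exp (((-(2 * s * cs θ) : ℝ) : ℂ) * Complex.I) := by
    have := prob
    have hc : Continuous fun θ : UnitAddCircle =>
        Complex.exp (((-(2 * s * cs θ) : ℝ) : ℂ) * Complex.I) :=
      Complex.continuous_exp.comp ((Complex.continuous_ofReal.comp
        (continuous_const.mul cs_cont).neg).mul continuous_const)
    exact hc.integrable_of_hasCompactSupport (HasCompactSupport.of_compactSpace _)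
  have h5 : bes s = (∫ θ : UnitAddCircle, Complex.exp (((-(2 * s * cs θ) : ℝ) : ℂ) * Complex.I)).re := by
    rw [bes_def]
    have h6 := integral_re hint
    simp only [RCLike.re_to_complex] at h6
    rw [← h6]
    refine integral_congr_ae (Eventually.of_forall fun θ => ?_)
    simp only
    rw [Complex.exp_ofReal_mul_I_re, Real.cos_neg]
  rw [h5]
  exact Complex.abs_re_le_norm _

/-- doubling -/
theorem bes_double (s : ℝ) : bes s ^ 2 ≤ 1 / 2 + bes (2 * s) / 2 := by
  have c1 : Continuous fun θ : UnitAddCircle => Real.cos (2 * s * cs θ) :=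
    Real.continuous_cos.comp (continuous_const.mul cs_cont)
  have c2 : Continuous fun θ : UnitAddCircle => Real.cos (2 * (2 * s) * cs θ) :=
    Real.continuous_cos.comp (continuous_const.mul cs_cont)
  have h1 : 0 ≤ ∫ θ : UnitAddCircle, (Real.cos (2 * s * cs θ) - bes s) ^ 2 :=
    integral_nonneg fun θ => sq_nonneg _
  have h2 : ∀ θ : UnitAddCircle, (Real.cos (2 * s * cs θ) - bes s) ^ 2 =
      (1 / 2 * Real.cos (2 * (2 * s) * cs θ) - 2 * bes s * Real.cos (2 * s * cs θ)) +
        (1 / 2 + bes s ^ 2) := by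
    intro θ
    have h3 := Real.cos_sq (2 * s * cs θ)
    rw [show 2 * (2 * s * cs θ) = 2 * (2 * s) * cs θ by ring] at h3
    linear_combination h3
  simp only [h2] at h1
  have i1 : Integrable fun θ : UnitAddCircle => 1 / 2 * Real.cos (2 * (2 * s) * cs θ) :=
    integ (continuous_const.mul c2)
  have i2 : Integrable fun θ : UnitAddCircle => 2 * bes s * Real.cos (2 * s * cs θ) :=
    integ (continuous_const.mul c1)
  have i3 : Integrable fun θ : UnitAddCircle => 1 / 2 * Real.cos (2 * (2 * s) * cs θ) -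
      2 * bes s * Real.cos (2 * s * cs θ) := i1.sub i2
  rw [integral_add i3 (integ continuous_const), integral_sub i1 i2, integral_const_mul,
    integral_const_mul, int_const, ← bes_def, ← bes_def] at h1
  nlinarith

theorem bes_q (C : ℝ) (hC : 0 < C) (h : ∀ s, |bes s| ≤ C / (1 + |s|) ^ (1 / 3 : ℝ)) :
    ∃ q : ℝ, 0 < q ∧ q < 1 ∧ ∀ s, 1 ≤ |s| → |bes s| ≤ q := by
  have hstep : ∀ k : ℕ, (∃ q : ℝ, 0 < q ∧ q < 1 ∧ ∀ s, (2 : ℝ) ^ k ≤ |s| → |bes s| ≤ q) →
      ∃ q : ℝ, 0 < q ∧ q < 1 ∧ ∀ s, 1 ≤ |s| → |bes s| ≤ q := by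
    intro k
    induction k with
    | zero => simp
    | succ k ih =>
      rintro ⟨q, hq0, hq1, hq⟩
      apply ih
      refine ⟨Real.sqrt (1 / 2 + q / 2), Real.sqrt_pos.2 (by positivity), ?_, ?_⟩
      · rw [Real.sqrt_lt' (by norm_num)]
        linarith
      · intro s hs
        apply Real.abs_le_sqrt
        refine (bes_double s).trans ?_
        have h1 : (2 : ℝ) ^ (k + 1) ≤ |2 * s| := by
          rw [abs_mul, abs_two, pow_succ]
          linarith
        have h2 := (le_abs_self _).trans (hq (2 * s) h1)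
        linarith
  obtain ⟨k, hk⟩ : ∃ k : ℕ, (2 * C) ^ 3 ≤ 2 ^ k := by
    obtain ⟨k, hk⟩ := pow_unbounded_of_one_lt ((2 * C) ^ 3) (one_lt_two)
    exact ⟨k, hk.le⟩
  apply hstep k
  refine ⟨1 / 2, by norm_num, by norm_num, ?_⟩
  intro s hs
  refine (h s).trans ?_
  have h1 : 0 < 1 + |s| := by positivity
  have h2 : 0 < (1 + |s|) ^ (1 / 3 : ℝ) := Real.rpow_pos_of_pos h1 _
  rw [div_le_iff₀ h2]
  have h3 : 2 * C ≤ (1 + |s|) ^ (1 / 3 : ℝ) := by
    have h4 : ((2 * C) ^ 3) ^ (1 / 3 : ℝ) = 2 * C := by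
      rw [← Real.rpow_natCast, ← Real.rpow_mul (by positivity)]
      norm_num
    rw [← h4]
    apply Real.rpow_le_rpow (by positivity) _ (by norm_num)
    linarith
  linarith

theorem main : S_BES := by
  have hdec : ∃ C : ℝ, 0 < C ∧ ∀ s, |bes s| ≤ C / (1 + |s|) ^ (1 / 3 : ℝ) := by
    obtain ⟨C, hC, h⟩ := Pool.Agent.W174.WA.KA.main
    exact ⟨C, hC, fun s => (bes_le_k1 s).trans (h s 0)⟩
  refine ⟨bes_cont, ?_, ?_, ?_, hdec⟩
  · intro s hs
    have h1 := bes_taylor hs
    have hs2 : s ^ 2 ≤ 1 := by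
      rw [← sq_abs]
      exact pow_le_one₀ (abs_nonneg _) hs
    have h2 : |Real.exp (-s ^ 2) - (1 - s ^ 2)| ≤ s ^ 4 / 2 := by
      have h3 : 1 - s ^ 2 ≤ Real.exp (-s ^ 2) := by
        have := Real.add_one_le_exp (-s ^ 2)
        linarith
      rw [abs_of_nonneg (by linarith)]
      have h4 : Real.exp (-s ^ 2) ≤ 1 - s ^ 2 + (s ^ 2) ^ 2 / 2 := by
        rw [Real.exp_neg]
        have h5 : 1 + s ^ 2 + (s ^ 2) ^ 2 / 2 ≤ Real.exp (s ^ 2) :=
          Real.quadratic_le_exp_of_nonneg (sq_nonneg s)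
        have h6 : (0 : ℝ) ≤ s ^ 2 := sq_nonneg s
        have h7 : 0 < 1 - s ^ 2 + (s ^ 2) ^ 2 / 2 := by nlinarith
        rw [inv_le_comm₀ (Real.exp_pos _) h7]
        refine le_trans ?_ h5
        rw [inv_le_iff_one_le_mul₀ h7]
        nlinarith [pow_nonneg h6 3, pow_nonneg h6 4]
      nlinarith
    have h8 : bes s - Real.exp (-s ^ 2) = (bes s - (1 - s ^ 2)) - (Real.exp (-s ^ 2) - (1 - s ^ 2)) := by
      ring
    rw [h8]
    refine (abs_sub _ _).trans ?_
    linarith
  · intro s hs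
    have h1 := abs_le.1 (bes_taylor hs)
    have hs2 : s ^ 2 ≤ 1 := by
      rw [← sq_abs]
      exact pow_le_one₀ (abs_nonneg _) hs
    have h2 : 0 ≤ s ^ 2 := sq_nonneg s
    have h3 := Real.add_one_le_exp (-(s ^ 2) / 2)
    rw [abs_le]
    have h4 : s ^ 4 ≤ s ^ 2 := by nlinarith
    constructor <;> nlinarith
  · obtain ⟨C, hC, h⟩ := hdec
    exact bes_q C hC h

end

end Pool.Agent.N507.HB
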